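import Pool.Agent.Q183.MD.Det

/-!
Averages along powers of a nonnegative function are controlled by its averages over intervals (MP_4d8f14_an).
-/

set_option autoImplicit false

namespace Pool.Agent.Q183.MD

open MeasureTheory Filter Finset

/-- the substitution -/
theorem sub_bound {θ : ℝ} (hθ : 0 < θ) {h : ℝ → ℝ} (hm : Measurable h) (hb : ∀ v, 0 ≤ h v ∧ h v ≤ 1) {V c s : ℝ}
    (hV : 0 < V) (hs : 0 ≤ s) (hc : 0 < c) (hcV : ∀ t, s < t → t ≤ V → c ≤ θ * t ^ (θ - 1)) :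
    ∫ t in Set.Ioc s V, h (t ^ θ) ≤ c⁻¹ * ∫ u in (0 : ℝ)..(V ^ θ), h u := by
  set g : ℝ → ℝ := Set.indicator (Set.Ioc 0 (V ^ θ)) h with hg
  have hgi : IntegrableOn g (Set.Ioi 0) := by
    refine Integrable.integrableOn ?_
    rw [hg, integrable_indicator_iff measurableSet_Ioc]
    exact Measure.integrableOn_of_bounded (M := 1) (by simp) hm.aestronglyMeasurable
      (ae_of_all _ fun r => by rw [Real.norm_eq_abs, abs_of_nonneg (hb r).1]; exact (hb r).2)
  have h1 : ∫ x in Set.Ioi (0 : ℝ), (θ * x ^ (θ - 1)) • g (x ^ θ) = ∫ y in Set.Ioi 0, g y :=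
    integral_comp_rpow_Ioi_of_pos hθ
  have h2 : ∫ y in Set.Ioi 0, g y = ∫ u in (0 : ℝ)..(V ^ θ), h u := by
    rw [intervalIntegral.integral_of_le (Real.rpow_nonneg hV.le _), hg, setIntegral_indicator measurableSet_Ioc]
    congr 2
    ext u
    simp only [Set.mem_inter_iff, Set.mem_Ioi, Set.mem_Ioc]
    tauto
  have h3 : IntegrableOn (fun x : ℝ => (θ * x ^ (θ - 1)) • g (x ^ θ)) (Set.Ioi 0) := by
    have := (integrableOn_Ioi_comp_rpow_iff g hθ.ne').2 hgi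
    rwa [abs_of_pos hθ] at this
  rw [← h2, ← h1, ← integral_const_mul]
  rw [← integral_indicator measurableSet_Ioc, ← integral_indicator measurableSet_Ioi]
  refine integral_mono_of_nonneg (ae_of_all _ fun t => ?_) ?_ (ae_of_all _ fun t => ?_)
  · refine Set.indicator_nonneg (fun t _ => (hb _).1) t
  · rw [integrable_indicator_iff measurableSet_Ioi]
    exact h3.const_mul _
  · show (Set.Ioc s V).indicator (fun t => h (t ^ θ)) t ≤
      (Set.Ioi (0 : ℝ)).indicator (fun a => c⁻¹ * ((θ * a ^ (θ - 1)) • g (a ^ θ))) t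
    by_cases ht : t ∈ Set.Ioc s V
    · have ht0 : 0 < t := lt_of_le_of_lt hs ht.1
      rw [Set.indicator_of_mem ht, Set.indicator_of_mem (show t ∈ Set.Ioi (0 : ℝ) from ht0)]
      have hgt : g (t ^ θ) = h (t ^ θ) := by
        have hmem : t ^ θ ∈ Set.Ioc (0 : ℝ) (V ^ θ) :=
          ⟨Real.rpow_pos_of_pos ht0 _, Real.rpow_le_rpow ht0.le ht.2 hθ.le⟩
        rw [hg]
        exact Set.indicator_of_mem hmem _
      rw [hgt, smul_eq_mul, ← mul_assoc]
      have h4 := hcV t ht.1 ht.2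
      have h5 : 1 ≤ c⁻¹ * (θ * t ^ (θ - 1)) := by
        rw [inv_mul_eq_div, le_div_iff₀ hc, one_mul]
        exact h4
      have := (hb (t ^ θ)).1
      nlinarith
    · rw [Set.indicator_of_notMem ht]
      refine Set.indicator_nonneg (fun t ht => ?_) t
      have ht0 : (0 : ℝ) < t := ht
      have : 0 ≤ g (t ^ θ) := Set.indicator_nonneg (fun u _ => (hb u).1) _
      rw [smul_eq_mul]
      have h6 : 0 ≤ t ^ (θ - 1) := Real.rpow_nonneg ht0.le _
      positivity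

/-- averages along powers, real variable -/
theorem cerr0 {θ : ℝ} (hθ : 0 < θ) {h : ℝ → ℝ} (hm : Measurable h) (hb : ∀ v, 0 ≤ h v ∧ h v ≤ 1) {ε V : ℝ}
    (hε : 0 < ε) (hε1 : ε ≤ 1) (hV : 0 < V) :
    (1 / V) * ∫ t in (0 : ℝ)..V, h (t ^ θ) ≤
      ε + (θ * min 1 (ε ^ (θ - 1)))⁻¹ * ((1 / V ^ θ) * ∫ u in (0 : ℝ)..(V ^ θ), h u) := by
  have hc : 0 < min 1 (ε ^ (θ - 1)) := lt_min one_pos (Real.rpow_pos_of_pos hε _)
  have hVθ : 0 < V ^ θ := Real.rpow_pos_of_pos hV _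
  have hVθ1 : 0 < V ^ (θ - 1) := Real.rpow_pos_of_pos hV _
  have hmc : Measurable fun t : ℝ => h (t ^ θ) := hm.comp (measurable_id.pow_const θ)
  have hi : ∀ s t : ℝ, IntervalIntegrable (fun t : ℝ => h (t ^ θ)) volume s t := by
    intro s t
    rw [intervalIntegrable_iff]
    exact Measure.integrableOn_of_bounded (M := 1) (by simp) hmc.aestronglyMeasurable
      (ae_of_all _ fun r => by rw [Real.norm_eq_abs, abs_of_nonneg (hb _).1]; exact (hb _).2)
  have h1 : ∫ t in (0 : ℝ)..(ε * V), h (t ^ θ) ≤ ε * V := by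
    have := intervalIntegral.integral_mono_on (by positivity) (hi 0 (ε * V)) (intervalIntegrable_const (c := (1 : ℝ)))
      (fun t _ => (hb _).2)
    simpa using this
  have h2 : ∫ t in (ε * V)..V, h (t ^ θ) ≤
      (θ * min 1 (ε ^ (θ - 1)) * V ^ (θ - 1))⁻¹ * ∫ u in (0 : ℝ)..(V ^ θ), h u := by
    rw [intervalIntegral.integral_of_le (by nlinarith)]
    refine sub_bound hθ hm hb hV (by positivity) (by positivity) fun t ht1 ht2 => ?_
    have ht0 : 0 < t := lt_trans (by positivity) ht1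
    have e1 : θ * min 1 (ε ^ (θ - 1)) * V ^ (θ - 1) = θ * (min 1 (ε ^ (θ - 1)) * V ^ (θ - 1)) := by ring
    rw [e1]
    refine mul_le_mul_of_nonneg_left ?_ hθ.le
    rcases le_total 1 θ with h | h
    · calc min 1 (ε ^ (θ - 1)) * V ^ (θ - 1) ≤ ε ^ (θ - 1) * V ^ (θ - 1) := by gcongr; exact min_le_right _ _
        _ = (ε * V) ^ (θ - 1) := (Real.mul_rpow hε.le hV.le).symm
        _ ≤ t ^ (θ - 1) := Real.rpow_le_rpow (by positivity) ht1.le (by linarith)
    · calc min 1 (ε ^ (θ - 1)) * V ^ (θ - 1) ≤ 1 * V ^ (θ - 1) := by gcongr; exact min_le_left _ _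
        _ = V ^ (θ - 1) := one_mul _
        _ ≤ t ^ (θ - 1) := Real.rpow_le_rpow_of_nonpos ht0 ht2 (by linarith)
  have h3 : ∫ t in (0 : ℝ)..V, h (t ^ θ) = (∫ t in (0 : ℝ)..(ε * V), h (t ^ θ)) + ∫ t in (ε * V)..V, h (t ^ θ) :=
    (intervalIntegral.integral_add_adjacent_intervals (hi _ _) (hi _ _)).symm
  rw [h3, mul_add]
  refine add_le_add ?_ ?_
  · calc (1 / V) * ∫ t in (0 : ℝ)..(ε * V), h (t ^ θ) ≤ (1 / V) * (ε * V) := by gcongr
      _ = ε := by field_simp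
  · calc (1 / V) * ∫ t in (ε * V)..V, h (t ^ θ) ≤
        (1 / V) * ((θ * min 1 (ε ^ (θ - 1)) * V ^ (θ - 1))⁻¹ * ∫ u in (0 : ℝ)..(V ^ θ), h u) := by gcongr
      _ = (θ * min 1 (ε ^ (θ - 1)))⁻¹ * ((1 / (V ^ (θ - 1) * V)) * ∫ u in (0 : ℝ)..(V ^ θ), h u) := by
          rw [mul_inv]
          field_simp
      _ = _ := by
          congr 3
          rw [← Real.rpow_add_one hV.ne']
          congr 1
          ring

/-- averages along powers at integers -/
theorem cerr {θ : ℝ} (hθ : 0 < θ) : ∃ K : ℝ → ℝ, (∀ ε, 0 < K ε) ∧ ∀ (h : ℝ → ℝ), Measurable h →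
    (∀ v, 0 ≤ h v ∧ h v ≤ 1) → ∀ E : ℝ, Tendsto (fun V : ℝ => (1 / V) * ∫ u in (0 : ℝ)..V, h u) atTop (nhds E) →
    ∀ a : ℝ, 0 < a → ∀ ε : ℝ, 0 < ε → ∀ᶠ N : ℕ in atTop,
      (1 / (N : ℝ)) * ∫ v in (0 : ℝ)..N, h ((a * v) ^ θ) ≤ ε + K ε * E := by
  set K : ℝ → ℝ := fun ε => if 0 < ε then (θ * min 1 ((min 1 (ε / 2)) ^ (θ - 1)))⁻¹ else 1 with hK
  have hKpos : ∀ ε, 0 < K ε := by
    intro ε
    simp only [hK]
    split_ifs with h
    · have h1 : 0 < min 1 (ε / 2) := lt_min one_pos (by positivity)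
      have h2 : 0 < min 1 ((min 1 (ε / 2)) ^ (θ - 1)) := lt_min one_pos (Real.rpow_pos_of_pos h1 _)
      positivity
    · exact one_pos
  refine ⟨K, hKpos, fun h hm hb E hE a ha ε hε => ?_⟩
  have hlim : Tendsto (fun N : ℕ => (a * (N : ℝ)) ^ θ) atTop atTop :=
    (tendsto_rpow_atTop hθ).comp (tendsto_natCast_atTop_atTop.const_mul_atTop ha)
  have hE2 := hE.comp hlim
  have h5 := hE2.eventually (gt_mem_nhds (show E < E + ε / (2 * K ε) by
    have : 0 < ε / (2 * K ε) := div_pos hε (by linarith [hKpos ε])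
    linarith))
  filter_upwards [h5, eventually_gt_atTop 0] with N hN hN0
  have hN0' : (0 : ℝ) < N := Nat.cast_pos.2 hN0
  have hV : 0 < a * (N : ℝ) := by positivity
  have hε1 : 0 < min 1 (ε / 2) := lt_min one_pos (by positivity)
  have h6 := cerr0 hθ hm hb hε1 (min_le_left _ _) hV
  have hKe : K ε = (θ * min 1 ((min 1 (ε / 2)) ^ (θ - 1)))⁻¹ := by simp only [hK, if_pos hε]
  rw [← hKe] at h6
  have h7 : (1 / (N : ℝ)) * ∫ v in (0 : ℝ)..N, h ((a * v) ^ θ) =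
      (1 / (a * N)) * ∫ t in (0 : ℝ)..(a * N), h (t ^ θ) := by
    have h8 := intervalIntegral.integral_comp_mul_left (a := 0) (b := (N : ℝ)) (fun t => h (t ^ θ)) ha.ne'
    rw [h8, mul_zero, smul_eq_mul]
    field_simp
  rw [h7]
  refine h6.trans ?_
  have h9 : K ε * ((1 / (a * (N : ℝ)) ^ θ) * ∫ u in (0 : ℝ)..((a * (N : ℝ)) ^ θ), h u) ≤
      K ε * (E + ε / (2 * K ε)) := mul_le_mul_of_nonneg_left hN.le (hKpos ε).le
  have h10 : K ε * (E + ε / (2 * K ε)) = K ε * E + ε / 2 := by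
    have := (hKpos ε).ne'
    field_simp
  have h11 : min 1 (ε / 2) ≤ ε / 2 := min_le_right _ _
  linarith

end Pool.Agent.Q183.MD
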