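import Pool.Agent.Q183.MD.Cerr

/-!
Flows at the times `(a n) ^ θ_j`: discrete and continuous averages (MP_4d8f14_an).
-/

set_option autoImplicit false

namespace Pool.Agent.Q183.MD

open MeasureTheory Filter Finset
open Pool.Agent.Y957.MC (IsFlow Adm Good Mod S_DETG flowInv smo flw2_all good_of_adm)
open Pool.Agent.Y256.MC (smoC smoC_meas smoC_bdd smoC_lip smoC_L1 prod_diffC norm_prod_le_one')
open Pool.Agent.Y312.MC (smo_meas smo_bdd smo_L1 meas_orb int_bdd flowInv_le ii_orb)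

universe u

/-- the case of functions bounded by one -/
theorem core (X : Type u) [MeasurableSpace X] (μ : Measure X) [IsProbabilityMeasure μ] (m : ℕ)
    (τ : Fin m → ℝ → X → X) (θ : Fin m → ℝ) (hθ : ∀ j, 0 < θ j)
    (f : Fin m → X → ℂ) (hτ : ∀ j, IsFlow μ (τ j)) (hf : ∀ j, Measurable (f j))
    (hf1 : ∀ j x, ‖f j x‖ ≤ 1) :
    ∀ᵐ x ∂μ, ∀ᵐ a : ℝ ∂(volume.restrict (Set.Ioi (0 : ℝ))),
      Tendsto (fun N : ℕ => (1 / (N : ℂ)) * (∑ n ∈ Icc 1 N, ∏ j, f j (τ j ((a * n) ^ θ j) x) -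
        ∫ v in (0 : ℝ)..N, ∏ j, f j (τ j ((a * v) ^ θ j) x))) atTop (nhds 0) := by
  choose K hK hE using fun j => flw2_all.{u} _ (good_of_adm (Pool.Agent.Y571.MC.pow (θ j) (hθ j)))
  choose K' hK' hE' using fun j => cerr (hθ j)
  have hpos : ∀ i : ℕ, 0 < 1 / ((i : ℝ) + 1) := fun i => by positivity
  set g : ℕ → Fin m → X → ℂ := fun i j => smoC (τ j) (f j) (1 / ((i : ℝ) + 1)) with hgdef
  have hgm : ∀ i j, Measurable (g i j) := fun i j => smoC_meas (hτ j) (hf j) (hpos i)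
  have hg1 : ∀ i j x, ‖g i j x‖ ≤ 1 := fun i j x => smoC_bdd (hτ j) (hf j) (hf1 j) (hpos i) x
  -- errors
  set e : ℕ → Fin m → X → ℝ := fun i j x => ‖f j x - g i j x‖ / 2 with hedef
  have hem : ∀ i j, Measurable (e i j) := fun i j => ((hf j).sub (hgm i j)).norm.div_const _
  have heb : ∀ i j x, 0 ≤ e i j x ∧ e i j x ≤ 1 := fun i j x => by
    have h5 := norm_sub_le (f j x) (g i j x)
    have h6 := hf1 j x
    have h7 := hg1 i j x
    refine ⟨by positivity, ?_⟩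
    simp only [hedef]
    linarith
  have heb' : ∀ i j x, |e i j x| ≤ 1 := fun i j x => by
    rw [abs_of_nonneg (heb i j x).1]; exact (heb i j x).2
  have heint : ∀ j, Tendsto (fun i => ∫ x, e i j x ∂μ) atTop (nhds 0) := by
    intro j
    have h5 := (smoC_L1 (hτ j) (hf j) (hf1 j)).div_const 2
    rw [zero_div] at h5
    refine h5.congr fun i => ?_
    simp only [hedef, hgdef, integral_div]
  -- the sum of the conditional expectations
  set Ψ : ℕ → X → ℝ := fun i x => ∑ j, (μ[e i j | flowInv (τ j)]) x with hΨ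
  have hΨ0' : ∀ᵐ x ∂μ, ∀ i j, 0 ≤ (μ[e i j | flowInv (τ j)]) x := by
    rw [ae_all_iff]
    intro i
    rw [ae_all_iff]
    intro j
    exact condExp_nonneg (ae_of_all _ fun x => (heb i j x).1)
  have hΨ0 : ∀ i, 0 ≤ᵐ[μ] Ψ i := by
    intro i
    filter_upwards [hΨ0'] with x hx
    exact Finset.sum_nonneg fun j _ => hx i j
  have hΨi : ∀ i, Integrable (Ψ i) μ := fun i => integrable_finsetSum _ fun j _ => integrable_condExp
  have hΨint : ∀ i, ∫ x, Ψ i x ∂μ = ∑ j, ∫ x, e i j x ∂μ := by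
    intro i
    simp only [hΨ]
    rw [integral_finsetSum _ fun j _ => integrable_condExp]
    exact Finset.sum_congr rfl fun j _ => integral_condExp (flowInv_le (τ j))
  have hΨlim : Tendsto (fun i => ∫ x, Ψ i x ∂μ) atTop (nhds 0) := by
    simp only [hΨint]
    have := tendsto_finsetSum (Finset.univ : Finset (Fin m)) fun j _ => heint j
    simpa using this
  have hinf : ∀ᵐ x ∂μ, ∀ k : ℕ, ∃ i, Ψ i x < 1 / ((k : ℝ) + 1) := by
    rw [ae_all_iff]
    intro k
    have hk : 0 < 1 / ((k : ℝ) + 1) := hpos k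
    have hmk : ∀ i, 1 / ((k : ℝ) + 1) * μ.real {x | 1 / ((k : ℝ) + 1) ≤ Ψ i x} ≤ ∫ x, Ψ i x ∂μ :=
      fun i => mul_meas_ge_le_integral_of_nonneg (hΨ0 i) (hΨi i) (1 / ((k : ℝ) + 1))
    have hbad : μ.real {x | ¬ ∃ i, Ψ i x < 1 / ((k : ℝ) + 1)} ≤ 0 := by
      have e3 : ∀ i, 1 / ((k : ℝ) + 1) * μ.real {x | ¬ ∃ i, Ψ i x < 1 / ((k : ℝ) + 1)} ≤ ∫ x, Ψ i x ∂μ := by
        intro i
        refine le_trans (mul_le_mul_of_nonneg_left ?_ hk.le) (hmk i)
        refine measureReal_mono ?_ (measure_ne_top _ _)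
        intro x hx
        simp only [Set.mem_ofPred_eq, not_exists, not_lt] at hx ⊢
        exact hx i
      have e4 := ge_of_tendsto' hΨlim e3
      nlinarith
    have : μ {x | ¬ ∃ i, Ψ i x < 1 / ((k : ℝ) + 1)} = 0 := by
      have e5 := le_antisymm hbad measureReal_nonneg
      rwa [measureReal_eq_zero_iff] at e5
    exact this
  -- discrete errors
  have her : ∀ᵐ x ∂μ, ∀ (i : ℕ) (j : Fin m), ∀ᵐ a : ℝ ∂(volume.restrict (Set.Ioi (0 : ℝ))), ∀ ε : ℝ, 0 < ε →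
      ∀ᶠ N : ℕ in atTop, (1 / (N : ℝ)) * ∑ n ∈ Icc 1 N, e i j (τ j (a * (n : ℝ) ^ θ j) x) ≤
        ε + K j ε * (μ[e i j | flowInv (τ j)]) x := by
    rw [ae_all_iff]
    intro i
    rw [ae_all_iff]
    intro j
    exact hE j X μ (τ j) (e i j) (hτ j) (hem i j) (heb i j)
  -- continuous errors
  have hec : ∀ᵐ x ∂μ, ∀ (i : ℕ) (j : Fin m), Tendsto (fun V : ℝ => smo (τ j) (e i j) V x) atTop
      (nhds ((μ[e i j | flowInv (τ j)]) x)) := by
    rw [ae_all_iff]
    intro i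
    rw [ae_all_iff]
    intro j
    exact Pool.Agent.Y48.MC.flwb X μ (τ j) (e i j) (hτ j) (hem i j) ⟨1, heb' i j⟩
  filter_upwards [hinf, her, hec, hΨ0'] with x hx1 hx2 hx3 hx4
  -- the main terms
  have hmain : ∀ i : ℕ, ∀ᵐ a : ℝ ∂(volume.restrict (Set.Ioi (0 : ℝ))),
      Tendsto (fun N : ℕ => (1 / (N : ℂ)) * (∑ n ∈ Icc 1 N, ∏ j, g i j (τ j ((a * n) ^ θ j) x) -
        ∫ v in (0 : ℝ)..N, ∏ j, g i j (τ j ((a * v) ^ θ j) x))) atTop (nhds 0) := by
    intro i
    have := hpos i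
    exact det hθ (G := fun j v => g i j (τ j v x)) (fun j v => hg1 i j _)
      (L := 2 * (2 * 1 / (1 / ((i : ℝ) + 1)))) (by positivity)
      (fun j v w => smoC_lip (hτ j) (hf j) (hf1 j) (hpos i) x v w)
  have hx2' : ∀ᵐ a : ℝ ∂(volume.restrict (Set.Ioi (0 : ℝ))), ∀ (i : ℕ) (j : Fin m), ∀ ε : ℝ, 0 < ε →
      ∀ᶠ N : ℕ in atTop, (1 / (N : ℝ)) * ∑ n ∈ Icc 1 N, e i j (τ j (a ^ θ j * (n : ℝ) ^ θ j) x) ≤
        ε + K j ε * (μ[e i j | flowInv (τ j)]) x := by
    rw [ae_all_iff]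
    intro i
    rw [ae_all_iff]
    intro j
    exact ae_rpow (P := fun a => ∀ ε : ℝ, 0 < ε →
      ∀ᶠ N : ℕ in atTop, (1 / (N : ℝ)) * ∑ n ∈ Icc 1 N, e i j (τ j (a * (n : ℝ) ^ θ j) x) ≤
        ε + K j ε * (μ[e i j | flowInv (τ j)]) x) (hθ j) (hx2 i j)
  filter_upwards [ae_all_iff.2 hmain, hx2', ae_restrict_mem measurableSet_Ioi] with a ha1 ha2 ha0
  have ha0' : 0 < a := ha0
  have hcer : ∀ (i : ℕ) (j : Fin m) (ε : ℝ), 0 < ε → ∀ᶠ N : ℕ in atTop,
      (1 / (N : ℝ)) * ∫ v in (0 : ℝ)..N, e i j (τ j ((a * v) ^ θ j) x) ≤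
        ε + K' j ε * (μ[e i j | flowInv (τ j)]) x := by
    intro i j ε hε
    have hom : Measurable fun v : ℝ => e i j (τ j v x) :=
      (hem i j).comp ((hτ j).meas.comp (measurable_id.prodMk measurable_const))
    exact hE' j (fun v => e i j (τ j v x)) hom (fun v => heb i j _) _ (hx3 i j) a ha0' ε hε
  rw [Metric.tendsto_nhds]
  intro ε' hε'
  -- choice of the parameters
  set R : ℝ := 4 * m + 1 with hRdef
  have hR0 : 0 < R := by positivity
  set ε : ℝ := ε' / (4 * R) with hε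
  have hε0 : 0 < ε := by positivity
  set Q : ℝ := 2 * (∑ j, (K j ε + K' j ε)) + 1 with hQ
  have hKs : 0 ≤ ∑ j, (K j ε + K' j ε) := Finset.sum_nonneg fun j _ => by
    have h1 := hK j ε
    have h2 := hK' j ε
    linarith
  have hQ0 : 0 < Q := by positivity
  obtain ⟨k, hk⟩ := exists_nat_one_div_lt (show 0 < ε' / (4 * Q) by positivity)
  obtain ⟨i, hi⟩ := hx1 k
  have hi' : Q * Ψ i x ≤ ε' / 4 := by
    have : Ψ i x < ε' / (4 * Q) := hi.trans hk
    rw [lt_div_iff₀ (by positivity)] at this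
    linarith
  have hcj : ∀ j, (μ[e i j | flowInv (τ j)]) x ≤ Ψ i x := fun j =>
    Finset.single_le_sum (f := fun j => (μ[e i j | flowInv (τ j)]) x) (fun j _ => hx4 i j) (Finset.mem_univ j)
  -- notation for the functions
  set P : ℝ → ℂ := fun v => ∏ j, f j (τ j ((a * v) ^ θ j) x) with hP
  set G : ℝ → ℂ := fun v => ∏ j, g i j (τ j ((a * v) ^ θ j) x) with hG
  set D : ℝ → ℝ := fun v => ∑ j, 2 * e i j (τ j ((a * v) ^ θ j) x) with hD
  have hPG : ∀ v, ‖P v - G v‖ ≤ D v := by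
    intro v
    refine (prod_diffC _ _ _ (fun j _ => hf1 j _) (fun j _ => hg1 i j _)).trans (le_of_eq ?_)
    refine Finset.sum_congr rfl fun j _ => ?_
    simp only [hedef]
    ring
  have hpm : ∀ j : Fin m, Measurable fun v : ℝ => τ j ((a * v) ^ θ j) x := fun j =>
    (hτ j).meas.comp (((measurable_id.const_mul a).pow_const (θ j)).prodMk measurable_const)
  have hPm : Measurable P := Finset.measurable_prod _ fun j _ => (hf j).comp (hpm j)
  have hGm : Measurable G := Finset.measurable_prod _ fun j _ => (hgm i j).comp (hpm j)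
  have hPi : ∀ s t : ℝ, IntervalIntegrable P volume s t := by
    intro s t
    rw [intervalIntegrable_iff]
    exact Measure.integrableOn_of_bounded (M := 1) (by simp) hPm.aestronglyMeasurable
      (ae_of_all _ fun r => norm_prod_le_one' _ _ fun j _ => hf1 j _)
  have hGi : ∀ s t : ℝ, IntervalIntegrable G volume s t := by
    intro s t
    rw [intervalIntegrable_iff]
    exact Measure.integrableOn_of_bounded (M := 1) (by simp) hGm.aestronglyMeasurable
      (ae_of_all _ fun r => norm_prod_le_one' _ _ fun j _ => hg1 i j _)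
  have hei : ∀ (j : Fin m) (s t : ℝ), IntervalIntegrable (fun v => e i j (τ j ((a * v) ^ θ j) x)) volume s t := by
    intro j s t
    rw [intervalIntegrable_iff]
    exact Measure.integrableOn_of_bounded (M := 1) (by simp) ((hem i j).comp (hpm j)).aestronglyMeasurable
      (ae_of_all _ fun r => by rw [Real.norm_eq_abs]; exact heb' i j _)
  have hDi : ∀ s t : ℝ, IntervalIntegrable D volume s t := by
    intro s t
    have h5 := IntervalIntegrable.sum (Finset.univ : Finset (Fin m))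
      (f := fun j v => 2 * e i j (τ j ((a * v) ^ θ j) x))
      (μ := volume) (a := s) (b := t) (fun j _ => (hei j s t).const_mul 2)
    have h6 : D = ∑ j : Fin m, fun v => 2 * e i j (τ j ((a * v) ^ θ j) x) := by
      ext v
      simp only [hD, Finset.sum_apply]
    rw [h6]
    exact h5
  have hev1 := (Metric.tendsto_nhds.1 (ha1 i)) ε hε0
  have hev3 : ∀ᶠ N : ℕ in atTop, ∀ j : Fin m,
      (1 / (N : ℝ)) * ∫ v in (0 : ℝ)..N, e i j (τ j ((a * v) ^ θ j) x) ≤
        ε + K' j ε * (μ[e i j | flowInv (τ j)]) x := by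
    rw [Filter.eventually_all]
    intro j
    exact hcer i j ε hε0
  have hev4 : ∀ᶠ N : ℕ in atTop, ∀ j : Fin m,
      (1 / (N : ℝ)) * ∑ n ∈ Icc 1 N, e i j (τ j (a ^ θ j * (n : ℝ) ^ θ j) x) ≤
        ε + K j ε * (μ[e i j | flowInv (τ j)]) x := by
    rw [Filter.eventually_all]
    intro j
    exact ha2 i j ε hε0
  filter_upwards [hev1, hev3, hev4] with N hN1 hN3 hN4
  rw [dist_zero_right] at hN1
  rw [dist_zero_right]
  have hsplit : (1 / (N : ℂ)) * (∑ n ∈ Icc 1 N, P n - ∫ v in (0 : ℝ)..N, P v) =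
      (1 / (N : ℂ)) * (∑ n ∈ Icc 1 N, G n - ∫ v in (0 : ℝ)..N, G v) +
      (1 / (N : ℂ)) * ∑ n ∈ Icc 1 N, (P n - G n) - (1 / (N : ℂ)) * ∫ v in (0 : ℝ)..N, (P v - G v) := by
    rw [Finset.sum_sub_distrib, intervalIntegral.integral_sub (hPi _ _) (hGi _ _)]
    ring
  show ‖(1 / (N : ℂ)) * (∑ n ∈ Icc 1 N, P n - ∫ v in (0 : ℝ)..N, P v)‖ < ε'
  rw [hsplit]
  have hb1 : ‖(1 / (N : ℂ)) * ∑ n ∈ Icc 1 N, (P n - G n)‖ ≤ (1 / (N : ℝ)) * ∑ n ∈ Icc 1 N, D n := by
    rw [norm_mul, norm_div, norm_one, Complex.norm_natCast]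
    refine mul_le_mul_of_nonneg_left ?_ (by positivity)
    exact (norm_sum_le _ _).trans (Finset.sum_le_sum fun n _ => hPG _)
  have hb1' : (1 / (N : ℝ)) * ∑ n ∈ Icc 1 N, D n ≤ 2 * (m * ε + (∑ j, K j ε) * Ψ i x) := by
    simp only [hD]
    rw [Finset.sum_comm, Finset.mul_sum]
    calc ∑ j : Fin m, (1 / (N : ℝ)) * ∑ n ∈ Icc 1 N, 2 * e i j (τ j ((a * n) ^ θ j) x)
        = ∑ j : Fin m, 2 * ((1 / (N : ℝ)) * ∑ n ∈ Icc 1 N, e i j (τ j (a ^ θ j * (n : ℝ) ^ θ j) x)) := by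
          refine Finset.sum_congr rfl fun j _ => ?_
          rw [← Finset.mul_sum]
          have : ∀ n : ℕ, (a * (n : ℝ)) ^ θ j = a ^ θ j * (n : ℝ) ^ θ j := fun n =>
            Real.mul_rpow ha0'.le (Nat.cast_nonneg n)
          simp only [this]
          ring
      _ ≤ ∑ j : Fin m, 2 * (ε + K j ε * Ψ i x) :=
          Finset.sum_le_sum fun j _ => mul_le_mul_of_nonneg_left ((hN4 j).trans (by
            have := mul_le_mul_of_nonneg_left (hcj j) (hK j ε).le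
            linarith)) (by norm_num)
      _ = _ := by
          rw [← Finset.mul_sum, Finset.sum_add_distrib, Finset.sum_mul]
          simp
  have hb2 : ‖(1 / (N : ℂ)) * ∫ v in (0 : ℝ)..N, (P v - G v)‖ ≤ (1 / (N : ℝ)) * ∫ v in (0 : ℝ)..N, D v := by
    rw [norm_mul, norm_div, norm_one, Complex.norm_natCast]
    refine mul_le_mul_of_nonneg_left ?_ (by positivity)
    refine intervalIntegral.norm_integral_le_of_norm_le (Nat.cast_nonneg N) ?_ (hDi _ _)
    exact ae_of_all _ fun v _ => hPG v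
  have hb2' : (1 / (N : ℝ)) * ∫ v in (0 : ℝ)..N, D v ≤ 2 * (m * ε + (∑ j, K' j ε) * Ψ i x) := by
    simp only [hD]
    rw [intervalIntegral.integral_finsetSum fun j _ => (hei j _ _).const_mul 2, Finset.mul_sum]
    calc ∑ j : Fin m, (1 / (N : ℝ)) * ∫ v in (0 : ℝ)..N, 2 * e i j (τ j ((a * v) ^ θ j) x)
        = ∑ j : Fin m, 2 * ((1 / (N : ℝ)) * ∫ v in (0 : ℝ)..N, e i j (τ j ((a * v) ^ θ j) x)) := by
          refine Finset.sum_congr rfl fun j _ => ?_
          rw [intervalIntegral.integral_const_mul]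
          ring
      _ ≤ ∑ j : Fin m, 2 * (ε + K' j ε * Ψ i x) :=
          Finset.sum_le_sum fun j _ => mul_le_mul_of_nonneg_left ((hN3 j).trans (by
            have := mul_le_mul_of_nonneg_left (hcj j) (hK' j ε).le
            linarith)) (by norm_num)
      _ = _ := by
          rw [← Finset.mul_sum, Finset.sum_add_distrib, Finset.sum_mul]
          simp
  have hΨx : 0 ≤ Ψ i x := Finset.sum_nonneg fun j _ => hx4 i j
  have hfin : ε + 2 * (m * ε + (∑ j, K j ε) * Ψ i x) + 2 * (m * ε + (∑ j, K' j ε) * Ψ i x) ≤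
      ε' / 4 + ε' / 4 := by
    have e1 : ε + 2 * (m * ε + (∑ j, K j ε) * Ψ i x) + 2 * (m * ε + (∑ j, K' j ε) * Ψ i x) =
        R * ε + 2 * (∑ j, (K j ε + K' j ε)) * Ψ i x := by
      rw [Finset.sum_add_distrib, hRdef]
      ring
    have e3 : R * ε = ε' / 4 := by
      rw [hε]; field_simp
    have e4 : 2 * (∑ j, (K j ε + K' j ε)) * Ψ i x ≤ Q * Ψ i x := by
      apply mul_le_mul_of_nonneg_right _ hΨx
      rw [hQ]; linarith
    rw [e1]; linarith
  calc _ ≤ ‖(1 / (N : ℂ)) * (∑ n ∈ Icc 1 N, G n - ∫ v in (0 : ℝ)..N, G v)‖ +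
      ‖(1 / (N : ℂ)) * ∑ n ∈ Icc 1 N, (P n - G n)‖ +
      ‖(1 / (N : ℂ)) * ∫ v in (0 : ℝ)..N, (P v - G v)‖ :=
        (norm_sub_le _ _).trans (add_le_add (norm_add_le _ _) le_rfl)
    _ ≤ ε + 2 * (m * ε + (∑ j, K j ε) * Ψ i x) + 2 * (m * ε + (∑ j, K' j ε) * Ψ i x) :=
        add_le_add (add_le_add hN1.le (hb1.trans hb1')) (hb2.trans hb2')
    _ < ε' := by linarith

end Pool.Agent.Q183.MD
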