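import Pool.Agent.Y957.MC.Poly
import Pool.Agent.Y957.MC.Fin8

/-!
Several degrees: powers of the parameter, the deterministic comparison, continuous averages along powers
(MP_4d8f14_an).
-/

set_option autoImplicit false

namespace Pool.Agent.Q183.MD

open MeasureTheory Filter Finset
open Pool.Agent.Y957.MC (IsFlow Adm Good Mod S_DETG flowInv smo)

/-- null sets and powers -/
theorem ae_rpow {P : ℝ → Prop} {D : ℝ} (hD : 0 < D)
    (h : ∀ᵐ a : ℝ ∂(volume.restrict (Set.Ioi (0 : ℝ))), P a) :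
    ∀ᵐ a : ℝ ∂(volume.restrict (Set.Ioi (0 : ℝ))), P (a ^ D) := by
  rw [ae_restrict_iff' measurableSet_Ioi] at h ⊢
  rw [ae_iff] at h ⊢
  have h1 : volume ((fun b : ℝ => b ^ (1 / D)) '' {b : ℝ | ¬ (b ∈ Set.Ioi 0 → P b)}) = 0 := by
    refine addHaar_image_eq_zero_of_differentiableOn_of_addHaar_eq_zero volume ?_ h
    intro b hb
    have hb0 : (0 : ℝ) < b := by
      by_contra hn
      exact hb fun h => absurd h hn
    exact ((Real.hasDerivAt_rpow_const (Or.inl hb0.ne')).differentiableAt).differentiableWithinAt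
  refine measure_mono_null ?_ h1
  intro a ha
  simp only [Set.mem_ofPred_eq, Classical.not_imp] at ha
  obtain ⟨ha0, ha1⟩ := ha
  have ha0' : (0 : ℝ) < a := ha0
  refine ⟨a ^ D, ?_, ?_⟩
  · simp only [Set.mem_ofPred_eq, Classical.not_imp]
    exact ⟨Real.rpow_pos_of_pos ha0' _, ha1⟩
  · show (a ^ D) ^ (1 / D) = a
    rw [← Real.rpow_mul ha0'.le, mul_one_div_cancel hD.ne', Real.rpow_one]

theorem prod_lip {m : ℕ} {G : Fin m → ℝ → ℂ} (hG1 : ∀ j v, ‖G j v‖ ≤ 1) {L : ℝ}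
    (hGL : ∀ j v w, ‖G j v - G j w‖ ≤ L * |v - w|) (a b : Fin m → ℝ) {R : ℝ} (hL : 0 ≤ L)
    (hR : ∀ j, |a j - b j| ≤ R) : ‖∏ j, G j (a j) - ∏ j, G j (b j)‖ ≤ m * (L * R) := by
  refine (Pool.Agent.Y256.MC.prod_diffC _ _ _ (fun j _ => hG1 j _) (fun j _ => hG1 j _)).trans ?_
  calc ∑ j, ‖G j (a j) - G j (b j)‖ ≤ ∑ _j : Fin m, L * R :=
        Finset.sum_le_sum fun j _ => (hGL j _ _).trans (mul_le_mul_of_nonneg_left (hR j) hL)
    _ = _ := by rw [Finset.sum_const, Finset.card_univ, Fintype.card_fin, nsmul_eq_mul]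

/-- powers with exponent at most one -/
theorem mod_pow {m : ℕ} {η : Fin m → ℝ} (hη0 : ∀ j, 0 < η j) (hη1 : ∀ j, η j ≤ 1) {G : Fin m → ℝ → ℂ}
    (hG1 : ∀ j v, ‖G j v‖ ≤ 1) {L : ℝ} (hL : 0 ≤ L) (hGL : ∀ j v w, ‖G j v - G j w‖ ≤ L * |v - w|)
    (Λ : ℝ) (hΛ : 1 ≤ Λ) : ∃ C : ℝ, ∀ M : ℝ, 1 ≤ M → Mod Λ (fun u => ∏ j, G j (u ^ η j)) C M := by
  refine ⟨m * (L * (2 * Real.exp Λ)) * Λ, fun M hM t ht0 ht1 => ?_⟩
  set F : ℝ → ℂ := fun u => ∏ j, G j (u ^ η j) with hF
  have h1 : ‖∫ s in (0 : ℝ)..Λ, ‖F (M * Real.exp (s + t)) - F (M * Real.exp s)‖‖ ≤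
      (m * (L * (M * Real.exp Λ * (2 * t)))) * |Λ - 0| := by
    refine intervalIntegral.norm_integral_le_of_norm_le_const fun s hs => ?_
    rw [Set.uIoc_of_le (by linarith)] at hs
    rw [norm_norm]
    refine prod_lip hG1 hGL (fun j => (M * Real.exp (s + t)) ^ η j) (fun j => (M * Real.exp s) ^ η j) hL fun j => ?_
    have hs0 : 0 ≤ s := hs.1.le
    have hu1 : 1 ≤ M * Real.exp s := by
      have := Real.one_le_exp hs0
      nlinarith
    have hu0 : 0 < M * Real.exp s := by linarith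
    have hj0 := hη0 j
    have hj1 := hη1 j
    have e1 : M * Real.exp (s + t) = (M * Real.exp s) * Real.exp t := by rw [Real.exp_add]; ring
    rw [e1, Real.mul_rpow hu0.le (Real.exp_pos _).le, ← Real.exp_mul]
    have e2 : (M * Real.exp s) ^ η j * Real.exp (t * η j) - (M * Real.exp s) ^ η j =
        (M * Real.exp s) ^ η j * (Real.exp (t * η j) - 1) := by ring
    have htη : 0 ≤ t * η j := by positivity
    have htη' : t * η j ≤ t := by nlinarith
    have h5 : 0 ≤ Real.exp (t * η j) - 1 := by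
      have := Real.add_one_le_exp (t * η j)
      linarith
    have h4 : Real.exp (t * η j) - 1 ≤ 2 * t := by
      have h6 : Real.exp (t * η j) ≤ Real.exp t := Real.exp_le_exp.mpr htη'
      have h7 : |Real.exp t - 1 - t| ≤ t ^ 2 := Real.abs_exp_sub_one_sub_id_le (by rw [abs_of_pos ht0]; exact ht1)
      have h8 := (abs_le.mp h7).2
      nlinarith
    have h9 : (M * Real.exp s) ^ η j ≤ M * Real.exp Λ := by
      calc (M * Real.exp s) ^ η j ≤ (M * Real.exp s) ^ (1 : ℝ) := Real.rpow_le_rpow_of_exponent_le hu1 hj1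
        _ = M * Real.exp s := Real.rpow_one _
        _ ≤ M * Real.exp Λ := by
            have := Real.exp_le_exp.mpr hs.2
            gcongr
    have h10 : 0 ≤ (M * Real.exp s) ^ η j := Real.rpow_nonneg hu0.le _
    rw [e2, abs_of_nonneg (mul_nonneg h10 h5)]
    exact mul_le_mul h9 h4 h5 (by positivity)
  rw [sub_zero, abs_of_pos (by linarith : 0 < Λ)] at h1
  calc _ ≤ ‖∫ s in (0 : ℝ)..Λ, ‖F (M * Real.exp (s + t)) - F (M * Real.exp s)‖‖ := Real.le_norm_self _
    _ ≤ _ := h1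
    _ = _ := by ring

/-- the deterministic comparison for several degrees -/
theorem det {m : ℕ} {θ : Fin m → ℝ} (hθ : ∀ j, 0 < θ j) {G : Fin m → ℝ → ℂ}
    (hG1 : ∀ j v, ‖G j v‖ ≤ 1) {L : ℝ} (hL : 0 ≤ L) (hGL : ∀ j v w, ‖G j v - G j w‖ ≤ L * |v - w|) :
    ∀ᵐ a : ℝ ∂(volume.restrict (Set.Ioi (0 : ℝ))),
      Tendsto (fun N : ℕ => (1 / (N : ℂ)) * (∑ n ∈ Icc 1 N, ∏ j, G j ((a * n) ^ θ j) -
        ∫ v in (0 : ℝ)..N, ∏ j, G j ((a * v) ^ θ j))) atTop (nhds 0) := by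
  set D : ℝ := 1 + ∑ j, θ j with hDdef
  have hD0 : 0 < D := by
    have : 0 ≤ ∑ j, θ j := Finset.sum_nonneg fun j _ => (hθ j).le
    linarith
  have hθD : ∀ j, θ j ≤ D := fun j => by
    have := Finset.single_le_sum (f := θ) (fun i _ => (hθ i).le) (Finset.mem_univ j)
    linarith
  set η : Fin m → ℝ := fun j => θ j / D with hη
  have hη0 : ∀ j, 0 < η j := fun j => div_pos (hθ j) hD0
  have hη1 : ∀ j, η j ≤ 1 := fun j => (div_le_one hD0).2 (hθD j)
  have hGm : ∀ j, Measurable (G j) := fun j => by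
    have : LipschitzWith (Real.toNNReal L) (G j) := by
      apply LipschitzWith.of_dist_le_mul
      intro v w
      rw [dist_eq_norm, Real.dist_eq, Real.coe_toNNReal _ hL]
      exact hGL j v w
    exact this.continuous.measurable
  have h1 := Pool.Agent.Y957.MC.detg_all (fun x => x ^ D) (Pool.Agent.Y571.MC.pow D hD0)
    (measurable_id.pow_const D) (fun u => ∏ j, G j (u ^ η j))
    (Finset.measurable_prod _ fun j _ => (hGm j).comp (measurable_id.pow_const _))
    (fun v => Pool.Agent.Y256.MC.norm_prod_le_one' _ _ fun j _ => hG1 j _)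
    (mod_pow hη0 hη1 hG1 hL hGL)
  filter_upwards [ae_rpow hD0 h1, ae_restrict_mem measurableSet_Ioi] with a ha ha0
  have ha0' : 0 < a := ha0
  have key : ∀ v : ℝ, 0 ≤ v → ∀ j, (a ^ D * v ^ D) ^ η j = (a * v) ^ θ j := by
    intro v hv j
    rw [← Real.mul_rpow ha0'.le hv, ← Real.rpow_mul (by positivity)]
    congr 1
    simp only [hη]
    field_simp
  refine ha.congr fun N => ?_
  congr 2
  · exact Finset.sum_congr rfl fun n _ => Finset.prod_congr rfl fun j _ => by rw [key n (Nat.cast_nonneg n) j]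
  · refine intervalIntegral.integral_congr fun v hv => ?_
    rw [Set.uIcc_of_le (Nat.cast_nonneg N)] at hv
    exact Finset.prod_congr rfl fun j _ => by rw [key v hv.1 j]

end Pool.Agent.Q183.MD
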