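import Pool.Agent.Q183.MD.Core

/-!
Flows at the times `(a n) ^ θ_j`: bounded functions, almost every time (MP_4d8f14_an).
-/

set_option autoImplicit false

namespace Pool.Agent.Q183.MD

open MeasureTheory Filter Finset
open Pool.Agent.Y957.MC (IsFlow exists_version cont_of_disc)

universe u

variable {X : Type u} [MeasurableSpace X] {μ : Measure X} [IsProbabilityMeasure μ] {m : ℕ}
  {τ : Fin m → ℝ → X → X} {θ : Fin m → ℝ}

/-- the product along the curve -/
noncomputable def crv (τ : Fin m → ℝ → X → X) (θ : Fin m → ℝ) (f : Fin m → X → ℂ) (x : X) (t : ℝ) : ℂ :=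
  ∏ j, f j (τ j (t ^ θ j) x)

theorem crv_meas (hτ : ∀ j, IsFlow μ (τ j)) {g : Fin m → X → ℂ} (hg : ∀ j, Measurable (g j)) :
    Measurable fun q : ℝ × X => crv τ θ g q.2 q.1 :=
  Finset.measurable_prod _ fun j _ => (hg j).comp
    ((hτ j).meas.comp ((measurable_fst.pow_const (θ j)).prodMk measurable_snd))

omit [MeasurableSpace X] in
theorem crv_bdd {g : Fin m → X → ℂ} {C : ℝ} (hC : ∀ j x, ‖g j x‖ ≤ C) (x : X) (t : ℝ) :
    ‖crv τ θ g x t‖ ≤ C ^ m := by
  unfold crv
  rw [norm_prod]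
  refine (Finset.prod_le_prod (fun _ _ => norm_nonneg _) fun j _ => hC j _).trans ?_
  rw [Finset.prod_const, Finset.card_univ, Fintype.card_fin]

/-- real exponents, bounded measurable functions -/
theorem conv1 (hτ : ∀ j, IsFlow μ (τ j)) (hθ : ∀ j, 0 < θ j) {g : Fin m → X → ℂ} (hgm : ∀ j, Measurable (g j))
    (hgb : ∃ C : ℝ, ∀ j x, ‖g j x‖ ≤ C) :
    ∀ᵐ a : ℝ, 0 < a → ∀ᵐ x ∂μ, Tendsto (fun N : ℕ => (1 / (N : ℂ)) * ∑ n ∈ Icc 1 N, crv τ θ g x (a * n) -
      (1 / ((a * N : ℝ) : ℂ)) * ∫ t in (0 : ℝ)..(a * N), crv τ θ g x t) atTop (nhds 0) := by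
  obtain ⟨C', hC'⟩ := hgb
  set C : ℝ := |C'| + 1 with hCdef
  have hC0 : 0 < C := by positivity
  have hC : ∀ j x, ‖g j x‖ ≤ C := fun j x => (hC' j x).trans ((le_abs_self _).trans (by linarith))
  have hmain := core X μ m τ θ hθ (fun j x => g j x / C) hτ (fun j => (hgm j).div_const _)
    (fun j x => by
      rw [norm_div, Complex.norm_real, Real.norm_eq_abs, abs_of_pos hC0, div_le_one hC0]
      exact hC j x)
  have hCc : (C : ℂ) ≠ 0 := by exact_mod_cast hC0.ne'
  have hCm : (C : ℂ) ^ m ≠ 0 := pow_ne_zero _ hCc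
  set d : ℕ → ℝ × X → ℂ := fun N q => (1 / (N : ℂ)) * (∑ n ∈ Icc 1 N, crv τ θ g q.2 (q.1 * n) -
    ∫ v in Set.Ioc (0 : ℝ) N, crv τ θ g q.2 (q.1 * v)) with hd
  have hdm : ∀ N, Measurable (d N) := by
    intro N
    refine measurable_const.mul (Measurable.sub (Finset.measurable_sum _ fun n _ => ?_) ?_)
    · exact (crv_meas hτ hgm).comp ((measurable_fst.mul_const _).prodMk measurable_snd)
    · have h2 : Measurable fun r : (ℝ × X) × ℝ => crv τ θ g r.1.2 (r.1.1 * r.2) :=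
        (crv_meas hτ hgm).comp ((measurable_fst.fst.mul measurable_snd).prodMk measurable_fst.snd)
      exact (h2.stronglyMeasurable.integral_prod_right' (ν := volume.restrict (Set.Ioc (0 : ℝ) N))).measurable
  have hSm : MeasurableSet {q : ℝ × X | Tendsto (fun N => d N q) atTop (nhds 0)} :=
    measurableSet_tendsto (nhds (0 : ℂ)) hdm
  have h1 : ∀ᵐ x ∂μ, ∀ᵐ a : ℝ ∂(volume.restrict (Set.Ioi (0 : ℝ))),
      (a, x) ∈ {q : ℝ × X | Tendsto (fun N => d N q) atTop (nhds 0)} := by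
    filter_upwards [hmain] with x hx
    filter_upwards [hx] with a ha
    have h6 := ha.mul_const ((C : ℂ) ^ m)
    rw [zero_mul] at h6
    refine h6.congr fun N => ?_
    have hprod : ∀ t : ℝ, ∏ j, (g j (τ j (t ^ θ j) x) / C) = crv τ θ g x t / (C : ℂ) ^ m := by
      intro t
      rw [Finset.prod_div_distrib, crv]
      simp
    simp only [hprod, hd]
    rw [← Finset.sum_div, intervalIntegral.integral_div, ← sub_div, mul_assoc, div_mul_cancel₀ _ hCm,
      intervalIntegral.integral_of_le (Nat.cast_nonneg N)]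
  have h3 := (Measure.ae_ae_comm (μ := volume.restrict (Set.Ioi (0 : ℝ))) (ν := μ)
    (p := fun a x => (a, x) ∈ {q : ℝ × X | Tendsto (fun N => d N q) atTop (nhds 0)}) hSm).2 h1
  rw [ae_restrict_iff' measurableSet_Ioi] at h3
  filter_upwards [h3] with a ha ha0
  filter_upwards [ha ha0] with x hx
  refine (show Tendsto (fun N => d N (a, x)) atTop (nhds 0) from hx).congr fun N => ?_
  simp only [hd]
  rw [← intervalIntegral.integral_of_le (Nat.cast_nonneg N),
    intervalIntegral.integral_comp_mul_left (a := 0) (b := (N : ℝ)) (fun t => crv τ θ g x t) ha0.ne', mul_zero, mul_sub]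
  congr 1
  rw [Complex.real_smul]
  push_cast
  ring

/-- another version of the functions: at almost all times of the curve -/
theorem crv_ae (hτ : ∀ j, IsFlow μ (τ j)) (hθ : ∀ j, 0 < θ j) {f g : Fin m → X → ℂ} (hfg : ∀ j, f j =ᵐ[μ] g j) :
    ∀ᵐ x ∂μ, ∀ᵐ t : ℝ ∂(volume.restrict (Set.Ioi (0 : ℝ))), crv τ θ f x t = crv τ θ g x t := by
  have h4 : ∀ j, ∀ᵐ x ∂μ, ∀ᵐ t : ℝ, f j (τ j t x) = g j (τ j t x) := by
    intro j
    obtain ⟨E, hE, hEm, hE0⟩ : ∃ E : Set X, {x | ¬ f j x = g j x} ⊆ E ∧ MeasurableSet E ∧ μ E = 0 :=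
      exists_measurable_superset_of_null (ae_iff.mp (hfg j))
    have h5 : ∀ᵐ x ∂μ, ∀ᵐ t : ℝ, τ j t x ∉ E := by
      have hset : MeasurableSet {q : ℝ × X | τ j q.1 q.2 ∉ E} := (hτ j).meas hEm.compl
      rw [← Measure.ae_ae_comm hset]
      refine ae_of_all _ fun t => ?_
      exact ((hτ j).mp t).quasiMeasurePreserving.ae (show ∀ᵐ x ∂μ, x ∉ E from by rw [ae_iff]; simpa using hE0)
    filter_upwards [h5] with x hx
    filter_upwards [hx] with t ht
    by_contra hne
    exact ht (hE hne)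
  filter_upwards [ae_all_iff.2 h4] with x hx
  have h6 : ∀ᵐ t : ℝ ∂(volume.restrict (Set.Ioi (0 : ℝ))), ∀ j, f j (τ j (t ^ θ j) x) = g j (τ j (t ^ θ j) x) := by
    rw [ae_all_iff]
    intro j
    exact ae_rpow (P := fun t => f j (τ j t x) = g j (τ j t x)) (hθ j) (ae_restrict_of_ae (hx j))
  filter_upwards [h6] with t ht
  exact Finset.prod_congr rfl fun j _ => ht j

end Pool.Agent.Q183.MD
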