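import Pool.Agent.Q183.MD.Fin

/-!
Flows at the times `(a n) ^ d_j`, integer exponents, symmetric averages (MP_4d8f14_an).
-/

set_option autoImplicit false

namespace Pool.Agent.Q183.MD

open MeasureTheory Filter Finset
open Pool.Agent.Y957.MC (IsFlow exists_version cont_of_disc)

universe u

variable {X : Type u} [MeasurableSpace X] {μ : Measure X} [IsProbabilityMeasure μ] {m : ℕ}
  {τ : Fin m → ℝ → X → X}

/-- the product along the curve, integer exponents -/
noncomputable def cin (τ : Fin m → ℝ → X → X) (d : Fin m → ℕ) (f : Fin m → X → ℂ) (x : X) (t : ℝ) : ℂ :=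
  ∏ j, f j (τ j (t ^ d j) x)

omit [MeasurableSpace X] in
theorem cin_eq (d : Fin m → ℕ) (f : Fin m → X → ℂ) (x : X) (t : ℝ) :
    cin τ d f x t = crv τ (fun j => (d j : ℝ)) f x t := by
  unfold cin crv
  simp only [Real.rpow_natCast]

omit [MeasurableSpace X] in
theorem cin_neg (d : Fin m → ℕ) (f : Fin m → X → ℂ) (x : X) (t : ℝ) :
    cin τ d f x (-t) = crv (fun j s => τ j ((-1) ^ d j * s)) (fun j => (d j : ℝ)) f x t := by
  unfold cin crv
  simp only [Real.rpow_natCast]
  exact Finset.prod_congr rfl fun j _ => by rw [neg_pow]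

theorem scale {σ : ℝ → X → X} (hσ : IsFlow μ σ) (c : ℝ) : IsFlow μ (fun t => σ (c * t)) where
  meas := hσ.meas.comp ((measurable_fst.const_mul c).prodMk measurable_snd)
  zero x := by simp only [mul_zero]; exact hσ.zero x
  add s t x := by simp only [mul_add]; exact hσ.add _ _ x
  mp t := hσ.mp _

theorem sum_sym (φ : ℤ → ℂ) (N : ℕ) :
    ∑ n ∈ Icc (-(N : ℤ)) N, φ n = φ 0 + ∑ n ∈ Icc 1 N, φ (n : ℤ) + ∑ n ∈ Icc 1 N, φ (-(n : ℤ)) := by
  induction N with
  | zero => simp
  | succ N ih =>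
    have hI : Icc (-((N + 1 : ℕ) : ℤ)) ((N + 1 : ℕ) : ℤ) =
        insert (-((N + 1 : ℕ) : ℤ)) (insert ((N + 1 : ℕ) : ℤ) (Icc (-(N : ℤ)) N)) := by
      ext z
      simp only [mem_Icc, mem_insert]
      push_cast
      omega
    rw [hI, sum_insert, sum_insert, ih, sum_Icc_succ_top (by omega), sum_Icc_succ_top (by omega)]
    · ring
    · simp only [mem_Icc]; push_cast; omega
    · simp only [mem_Icc, mem_insert]; push_cast; omega

/-- from the two one-sided comparisons to the symmetric one -/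
theorem sym_of {F : ℝ → ℂ} {C : ℝ} (hC : 0 ≤ C) (hFm : Measurable F) (hFb : ∀ t, ‖F t‖ ≤ C) {a : ℝ} (ha : 0 < a)
    (h1 : Tendsto (fun N : ℕ => (1 / (N : ℂ)) * ∑ n ∈ Icc 1 N, F (a * n) -
      (1 / ((a * N : ℝ) : ℂ)) * ∫ t in (0 : ℝ)..(a * N), F t) atTop (nhds 0))
    (h2 : Tendsto (fun N : ℕ => (1 / (N : ℂ)) * ∑ n ∈ Icc 1 N, F (-(a * n)) -
      (1 / ((a * N : ℝ) : ℂ)) * ∫ t in (0 : ℝ)..(a * N), F (-t)) atTop (nhds 0)) (L : ℂ) :
    Tendsto (fun N : ℕ => (1 / (2 * (N : ℂ) + 1)) * ∑ n ∈ Icc (-(N : ℤ)) N, F (a * (n : ℝ))) atTop (nhds L) ↔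
      Tendsto (fun V : ℝ => (1 / (2 * (V : ℂ))) * ∫ t in (-V)..V, F t) atTop (nhds L) := by
  have hFi : ∀ V W : ℝ, IntervalIntegrable F volume V W := fun V W => by
    rw [intervalIntegrable_iff]
    exact Measure.integrableOn_of_bounded (M := C) (by simp) hFm.aestronglyMeasurable (ae_of_all _ fun r => hFb r)
  have hFi' : ∀ V W : ℝ, IntervalIntegrable (fun t => F (-t)) volume V W := fun V W => by
    rw [intervalIntegrable_iff]
    exact Measure.integrableOn_of_bounded (M := C) (by simp) (hFm.comp measurable_neg).aestronglyMeasurable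
      (ae_of_all _ fun r => hFb _)
  set G : ℝ → ℂ := fun t => (F t + F (-t)) / 2 with hG
  have hGi : ∀ V W : ℝ, IntervalIntegrable G volume V W := fun V W => ((hFi V W).add (hFi' V W)).div_const 2
  have hGb : ∀ t, ‖G t‖ ≤ C := fun t => by
    simp only [hG]
    rw [norm_div, Complex.norm_ofNat, div_le_iff₀ two_pos]
    have := norm_add_le (F t) (F (-t))
    have h3 := hFb t
    have h4 := hFb (-t)
    linarith
  have hGint : ∀ V : ℝ, ∫ t in (0 : ℝ)..V, G t = (1 / 2) * ∫ t in (-V)..V, F t := by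
    intro V
    have e1 : ∫ t in (-V)..V, F t = (∫ t in (-V)..0, F t) + ∫ t in (0 : ℝ)..V, F t :=
      (intervalIntegral.integral_add_adjacent_intervals (hFi _ _) (hFi _ _)).symm
    have e2 : ∫ t in (0 : ℝ)..V, F (-t) = ∫ t in (-V)..0, F t := by
      rw [intervalIntegral.integral_comp_neg (fun t => F t), neg_zero]
    simp only [hG]
    rw [intervalIntegral.integral_div, intervalIntegral.integral_add (hFi _ _) (hFi' _ _), e1, e2]
    ring
  have hV : ∀ V : ℝ, (1 / (2 * (V : ℂ))) * ∫ t in (-V)..V, F t = (1 / (V : ℂ)) * ∫ t in (0 : ℝ)..V, G t := by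
    intro V
    rw [hGint]
    by_cases hV : (V : ℂ) = 0
    · simp [hV]
    · field_simp
  simp only [hV]
  -- the comparison
  have hsum : Tendsto (fun N : ℕ => (1 / (2 * (N : ℂ) + 1)) * ∑ n ∈ Icc (-(N : ℤ)) N, F (a * (n : ℝ)) -
      (1 / ((a * N : ℝ) : ℂ)) * ∫ t in (0 : ℝ)..(a * N), G t) atTop (nhds 0) := by
    have hz : Tendsto (fun N : ℕ => (1 / (2 * (N : ℂ) + 1))) atTop (nhds 0) := by
      have h5 : Tendsto (fun N : ℕ => (1 : ℝ) / (2 * (N : ℝ) + 1)) atTop (nhds 0) := by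
        refine tendsto_const_nhds.div_atTop ?_
        exact tendsto_atTop_add_const_right _ _ (tendsto_natCast_atTop_atTop.const_mul_atTop two_pos)
      have h6 := (Complex.continuous_ofReal.tendsto 0).comp h5
      rw [Complex.ofReal_zero] at h6
      refine h6.congr fun N => ?_
      simp
    set S : ℕ → ℂ := fun N => (1 / (N : ℂ)) * ∑ n ∈ Icc 1 N, F (a * n) + (1 / (N : ℂ)) * ∑ n ∈ Icc 1 N, F (-(a * n))
      with hS
    have hSb : ∀ N, ‖S N‖ ≤ 2 * C := by
      intro N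
      have key : ∀ φ : ℕ → ℂ, (∀ n, ‖φ n‖ ≤ C) → ‖(1 / (N : ℂ)) * ∑ n ∈ Icc 1 N, φ n‖ ≤ C := by
        intro φ hφ
        rw [norm_mul, norm_div, norm_one, Complex.norm_natCast]
        rcases Nat.eq_zero_or_pos N with rfl | hN
        · simpa using hC
        have hN0 : (0 : ℝ) < N := Nat.cast_pos.2 hN
        calc 1 / (N : ℝ) * ‖∑ n ∈ Icc 1 N, φ n‖ ≤ 1 / (N : ℝ) * (N * C) := by
              gcongr
              refine (norm_sum_le _ _).trans ((Finset.sum_le_sum fun n _ => hφ n).trans ?_)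
              rw [Finset.sum_const, Nat.card_Icc, nsmul_eq_mul]
              simp
          _ = C := by field_simp
      have h7 := key (fun n => F (a * n)) fun n => hFb _
      have h8 := key (fun n => F (-(a * n))) fun n => hFb _
      simp only [hS]
      exact (norm_add_le _ _).trans (by linarith)
    have h9 : Tendsto (fun N : ℕ => (1 / (2 * (N : ℂ) + 1)) * S N) atTop (nhds 0) := by
      refine squeeze_zero_norm (a := fun N : ℕ => ‖(1 / (2 * (N : ℂ) + 1))‖ * (2 * C)) (fun N => ?_) ?_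
      · rw [norm_mul]
        exact mul_le_mul_of_nonneg_left (hSb N) (norm_nonneg _)
      · have := hz.norm.mul_const (2 * C)
        rwa [norm_zero, zero_mul] at this
    have h10 := (((hz.const_mul (F (a * ((0 : ℤ) : ℝ)))).add (h1.const_mul (1 / 2))).add (h2.const_mul (1 / 2))).add
      (h9.const_mul (-(1 / 2)))
    simp only [mul_zero, add_zero] at h10
    refine h10.congr' ?_
    filter_upwards [eventually_gt_atTop 0] with N hN
    have hNc : (N : ℂ) ≠ 0 := Nat.cast_ne_zero.2 hN.ne'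
    have h2N : (2 * (N : ℂ) + 1) ≠ 0 := by
      have : ((2 * N + 1 : ℕ) : ℂ) ≠ 0 := Nat.cast_ne_zero.2 (by omega)
      push_cast at this
      exact this
    have hac : (a : ℂ) ≠ 0 := by exact_mod_cast ha.ne'
    have e5 : ∫ t in (0 : ℝ)..(a * N), G t = (1 / 2) * ((∫ t in (0 : ℝ)..(a * N), F t) +
        ∫ t in (0 : ℝ)..(a * N), F (-t)) := by
      simp only [hG]
      rw [intervalIntegral.integral_div, intervalIntegral.integral_add (hFi _ _) (hFi' _ _)]
      ring
    rw [sum_sym (fun n => F (a * (n : ℝ))) N, e5]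
    simp only [hS, Int.cast_zero, Int.cast_natCast, Int.cast_neg, mul_neg, mul_zero]
    push_cast
    field_simp
    ring
  constructor
  · intro h
    refine cont_of_disc ha hC (ae_of_all _ hGb) hGi ?_
    have h3 := h.sub hsum
    rw [sub_zero] at h3
    refine h3.congr fun N => ?_
    ring
  · intro h
    have hlimN : Tendsto (fun N : ℕ => a * (N : ℝ)) atTop atTop :=
      tendsto_natCast_atTop_atTop.const_mul_atTop ha
    have h3 := hsum.add (h.comp hlimN)
    rw [zero_add] at h3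
    refine h3.congr fun N => ?_
    simp only [Function.comp_apply]
    ring

/-- symmetric averages, integer exponents -/
theorem two (hτ : ∀ j, IsFlow μ (τ j)) {d : Fin m → ℕ} (hd : ∀ j, 0 < d j) {f : Fin m → X → ℂ}
    (hf : ∀ j, AEStronglyMeasurable (f j) μ) (hfb : ∀ j, ∃ C : ℝ, ∀ᵐ x ∂μ, ‖f j x‖ ≤ C) :
    ∀ᵐ a : ℝ, 0 < a → ∀ᵐ x ∂μ, ∀ L : ℂ,
      (Tendsto (fun N : ℕ => (1 / (2 * (N : ℂ) + 1)) * ∑ n ∈ Icc (-(N : ℤ)) N, cin τ d f x (a * (n : ℝ))) atTop
        (nhds L) ↔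
      Tendsto (fun V : ℝ => (1 / (2 * (V : ℂ))) * ∫ t in (-V)..V, cin τ d f x t) atTop (nhds L)) := by
  choose g hgm hgb hfg using fun j => exists_version (hf j) (hfb j)
  choose C hC' using hgb
  set K : ℝ := ∑ j, |C j| with hK
  have hK0 : 0 ≤ K := Finset.sum_nonneg fun j _ => abs_nonneg _
  have hgK : ∀ j x, ‖g j x‖ ≤ K := fun j x => (hC' j x).trans ((le_abs_self _).trans
    (Finset.single_le_sum (f := fun j => |C j|) (fun i _ => abs_nonneg _) (Finset.mem_univ j)))
  have hθ : ∀ j, (0 : ℝ) < (d j : ℝ) := fun j => Nat.cast_pos.2 (hd j)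
  have hτ' : ∀ j, IsFlow μ (fun s => τ j ((-1) ^ d j * s)) := fun j => scale (hτ j) _
  have h1 := conv1 hτ hθ hgm ⟨K, hgK⟩
  have h2 := conv1 hτ' hθ hgm ⟨K, hgK⟩
  have h3 := crv_ae hτ hθ hfg
  have h4 := crv_ae hτ' hθ hfg
  filter_upwards [h1, h2] with a ha1 ha2 ha0
  have h5 : ∀ᵐ x ∂μ, ∀ (k : ℤ) (j : Fin m), f j (τ j ((a * (k : ℝ)) ^ d j) x) = g j (τ j ((a * (k : ℝ)) ^ d j) x) := by
    rw [ae_all_iff]
    intro k
    rw [ae_all_iff]
    intro j
    exact ((hτ j).mp _).quasiMeasurePreserving.ae (hfg j)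
  filter_upwards [ha1 ha0, ha2 ha0, h3, h4, h5] with x hx1 hx2 hx3 hx4 hx5 L
  have e1 : ∀ n : ℤ, cin τ d f x (a * (n : ℝ)) = cin τ d g x (a * (n : ℝ)) := fun n =>
    Finset.prod_congr rfl fun j _ => hx5 n j
  simp only [← cin_eq] at hx1 hx3
  simp only [← cin_neg] at hx2 hx4
  have hFm : Measurable (cin τ d g x) := by
    have h6 := (crv_meas (θ := fun j => (d j : ℝ)) hτ hgm).comp
      (measurable_id.prodMk (measurable_const (a := x)) : Measurable fun t : ℝ => (t, x))
    have h7 : cin τ d g x = (fun q : ℝ × X => crv τ (fun j => (d j : ℝ)) g q.2 q.1) ∘ fun t : ℝ => (t, x) := by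
      funext t
      exact cin_eq d g x t
    rw [h7]
    exact h6
  have hFb : ∀ t, ‖cin τ d g x t‖ ≤ K ^ m := fun t => by
    rw [cin_eq]
    exact crv_bdd hgK x t
  have hall : ∀ᵐ t : ℝ, cin τ d f x t = cin τ d g x t := by
    have hp : ∀ᵐ t : ℝ, 0 < t → cin τ d f x t = cin τ d g x t := by
      rw [ae_restrict_iff' measurableSet_Ioi] at hx3
      exact hx3
    have hn : ∀ᵐ t : ℝ, 0 < t → cin τ d f x (-t) = cin τ d g x (-t) := by
      rw [ae_restrict_iff' measurableSet_Ioi] at hx4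
      exact hx4
    have hn' : ∀ᵐ t : ℝ, 0 < -t → cin τ d f x (-(-t)) = cin τ d g x (-(-t)) :=
      (Measure.measurePreserving_neg (volume : Measure ℝ)).quasiMeasurePreserving.ae hn
    have h0 : ∀ᵐ t : ℝ, t ≠ 0 := by
      rw [ae_iff]
      simp
    filter_upwards [hp, hn', h0] with t h6 h7 h8
    rcases lt_or_gt_of_ne h8 with h9 | h9
    · have := h7 (by linarith)
      rwa [neg_neg] at this
    · exact h6 h9
  have e2 : ∀ V : ℝ, ∫ t in (-V)..V, cin τ d f x t = ∫ t in (-V)..V, cin τ d g x t := fun V =>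
    intervalIntegral.integral_congr_ae (by filter_upwards [hall] with t ht _ using ht)
  simp only [e1, e2]
  exact sym_of (pow_nonneg hK0 m) hFm hFb ha0 hx1 hx2 L

end Pool.Agent.Q183.MD
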